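import Pool.Agent.W2helper3.BQ.Stm

/-!
# Piece BRA of project BQ: averages over the circle of the bounds of the Bregman divergence
-/

set_option autoImplicit false

open MeasureTheory Set Filter Topology
open scoped SchwartzMap ENNReal ContDiff BigOperators

namespace Pool.Agent.W2helper75.BQ

open Pool.Agent.W2helper3.BQ

theorem av_mono {f g : ℝ → ℝ} (hf : Continuous f) (hg : Continuous g) (h : ∀ t, f t ≤ g t) :
    av f ≤ av g := by
  unfold av
  have hpi := Real.pi_pos
  refine mul_le_mul_of_nonneg_left ?_ (by positivity)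
  exact intervalIntegral.integral_mono_on (by positivity) (hf.intervalIntegrable _ _)
    (hg.intervalIntegrable _ _) fun t _ => h t

theorem av_smul (c : ℝ) (f : ℝ → ℝ) : (av fun t => c * f t) = c * av f := by
  unfold av
  rw [intervalIntegral.integral_const_mul]
  ring

theorem av_const (c : ℝ) : (av fun _ => c) = c := by
  unfold av
  have hpi := Real.pi_pos
  rw [intervalIntegral.integral_const]
  simp only [smul_eq_mul]
  field_simp
  ring

theorem av_add {f g : ℝ → ℝ} (hf : Continuous f) (hg : Continuous g) :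
    (av fun t => f t + g t) = av f + av g := by
  unfold av
  rw [intervalIntegral.integral_add (hf.intervalIntegrable _ _) (hg.intervalIntegrable _ _)]
  ring

theorem av_nonneg {f : ℝ → ℝ} (hf : Continuous f) (h : ∀ t, 0 ≤ f t) : 0 ≤ av f := by
  have := av_mono (f := fun _ => (0 : ℝ)) continuous_const hf h
  rwa [av_const] at this

/-- Jensen's inequality -/
theorem jensen {g : ℝ → ℝ} (hg : Continuous g) (h0 : ∀ t, 0 ≤ g t) {p : ℝ} (hp : 1 ≤ p) :
    (av g) ^ p ≤ av fun t => g t ^ p := by
  have hc : Continuous fun t => g t ^ p := hg.rpow_const fun _ => Or.inr (by linarith)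
  rcases (av_nonneg hg h0).eq_or_lt with hm | hm
  · rw [← hm, Real.zero_rpow (by linarith)]
    exact av_nonneg hc fun t => Real.rpow_nonneg (h0 t) p
  · set m := av g with hmdef
    have h1 : ∀ t, m ^ p * (1 - p) + m ^ p * p / m * g t ≤ g t ^ p := by
      intro t
      have h2 : -1 ≤ g t / m - 1 := by
        have : 0 ≤ g t / m := div_nonneg (h0 t) hm.le
        linarith
      have h3 := one_add_mul_self_le_rpow_one_add h2 hp
      have h4 : 1 + (g t / m - 1) = g t / m := by ring
      rw [h4, Real.div_rpow (h0 t) hm.le] at h3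
      have h5 : 0 < m ^ p := Real.rpow_pos_of_pos hm p
      rw [le_div_iff₀ h5] at h3
      calc _ = (1 + p * (g t / m - 1)) * m ^ p := by ring
        _ ≤ _ := h3
    have h6 := av_mono (f := fun t => m ^ p * (1 - p) + m ^ p * p / m * g t)
      (continuous_const.add (continuous_const.mul hg)) hc h1
    rw [av_add (f := fun _ => m ^ p * (1 - p)) (g := fun t => m ^ p * p / m * g t)
      continuous_const (continuous_const.mul hg), av_const, av_smul, ← hmdef] at h6
    have h7 : m ^ p * (1 - p) + m ^ p * p / m * m = m ^ p := by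
      field_simp
      ring
    rwa [h7] at h6

theorem jensen2 {g : ℝ → ℝ} (hg : Continuous g) (h0 : ∀ t, 0 ≤ g t) :
    (av g) ^ 2 ≤ av fun t => g t ^ 2 := by
  have := jensen hg h0 (p := 2) (by norm_num)
  simpa using this

theorem p_BRA : P_BRA := by
  intro hBR p hp f b hf
  have hfb : Continuous fun t => ‖f t - b‖ := (hf.sub continuous_const).norm
  have hf0 : ∀ t, 0 ≤ ‖f t - b‖ := fun t => norm_nonneg _
  have hbr : Continuous fun t => br p (f t) b := by
    unfold br
    have h1 : Continuous fun t => ‖f t‖ ^ p := hf.norm.rpow_const fun _ => Or.inr (by linarith)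
    have h2 : Continuous fun t => ((starRingEnd ℂ) b * (f t - b)).re :=
      Complex.continuous_re.comp (continuous_const.mul (hf.sub continuous_const))
    exact (h1.sub continuous_const).sub (continuous_const.mul h2)
  have hb0 : 0 ≤ ‖b‖ := norm_nonneg b
  have hc0 : 0 ≤ p / 2 * ‖b‖ ^ (p - 2) := by positivity
  refine ⟨?_, ?_⟩
  · have h1 := mul_le_mul_of_nonneg_left (jensen2 hfb hf0) hc0
    refine h1.trans ?_
    rw [← av_smul]
    exact av_mono (continuous_const.mul (hfb.pow 2)) hbr fun t => (hBR p hp (f t) b).1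
  · intro h8
    set A := av fun t => ‖f t - b‖ with hA
    have hA0 : 0 ≤ A := av_nonneg hfb hf0
    have hpt : ∀ t, (1 / 2 : ℝ) ^ p * ‖f t - b‖ ^ p + -((1 / 2 : ℝ) ^ p * (4 * ‖b‖) ^ p) ≤
        br p (f t) b := by
      intro t
      have h2 : (0 : ℝ) < (1 / 2 : ℝ) ^ p := Real.rpow_pos_of_pos (by norm_num) p
      by_cases h : 4 * ‖b‖ ≤ ‖f t - b‖
      · have h1 := (hBR p hp (f t) b).2.2 h
        have h3 : 0 ≤ (4 * ‖b‖) ^ p := Real.rpow_nonneg (by positivity) p
        have h4 : 0 ≤ (1 / 2 : ℝ) ^ p * (4 * ‖b‖) ^ p := mul_nonneg h2.le h3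
        linarith
      · have h1 := (hBR p hp (f t) b).1
        have h3 : ‖f t - b‖ ^ p ≤ (4 * ‖b‖) ^ p :=
          Real.rpow_le_rpow (hf0 t) (le_of_not_ge h) (by linarith)
        have h4 := mul_le_mul_of_nonneg_left h3 h2.le
        have h5 : 0 ≤ p / 2 * ‖b‖ ^ (p - 2) * ‖f t - b‖ ^ 2 := mul_nonneg hc0 (by positivity)
        linarith
    have hcp : Continuous fun t => ‖f t - b‖ ^ p := hfb.rpow_const fun _ => Or.inr (by linarith)
    have h1 := av_mono (f := fun t => (1 / 2 : ℝ) ^ p * ‖f t - b‖ ^ p +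
      -((1 / 2 : ℝ) ^ p * (4 * ‖b‖) ^ p)) ((continuous_const.mul hcp).add continuous_const) hbr hpt
    rw [av_add (f := fun t => (1 / 2 : ℝ) ^ p * ‖f t - b‖ ^ p)
      (g := fun _ => -((1 / 2 : ℝ) ^ p * (4 * ‖b‖) ^ p)) (continuous_const.mul hcp)
      continuous_const, av_const, av_smul] at h1
    refine le_trans ?_ h1
    have h2 : (0 : ℝ) < (1 / 2 : ℝ) ^ p := Real.rpow_pos_of_pos (by norm_num) p
    have h3 := mul_le_mul_of_nonneg_left (jensen hfb hf0 (p := p) (by linarith)) h2.le
    have h4 : (4 * ‖b‖) ^ p ≤ (1 / 2 * A) ^ p :=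
      Real.rpow_le_rpow (by positivity) (by linarith) (by linarith)
    rw [Real.mul_rpow (by norm_num) hA0] at h4
    have h5 := mul_le_mul_of_nonneg_left h4 h2.le
    have h6 : (1 / 4 : ℝ) ^ p = (1 / 2 : ℝ) ^ p * (1 / 2 : ℝ) ^ p := by
      rw [← Real.mul_rpow (by norm_num) (by norm_num)]
      norm_num
    have h7 : (1 / 2 : ℝ) ^ p ≤ 1 / 2 := by
      have := Real.rpow_le_rpow_of_exponent_ge (x := (1 / 2 : ℝ)) (by norm_num) (by norm_num)
        (show (1 : ℝ) ≤ p by linarith)
      rwa [Real.rpow_one] at this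
    have h8 : 0 ≤ A ^ p := Real.rpow_nonneg hA0 p
    rw [h6]
    have h9 : 0 ≤ (1 / 2 : ℝ) ^ p * A ^ p * (1 - 2 * (1 / 2 : ℝ) ^ p) :=
      mul_nonneg (mul_nonneg h2.le h8) (by linarith)
    rw [← hA] at h3
    nlinarith [h9, h3, h5]

end Pool.Agent.W2helper75.BQ
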