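import Pool.Agent.W2helper3.BQ.Stm

/-!
# Piece EXI of project BQ: functions of one angular mode supported in an annulus
-/

set_option autoImplicit false

open MeasureTheory Set Filter Topology
open scoped SchwartzMap ENNReal ContDiff BigOperators

namespace Pool.Agent.W2helper75.BQ

open Pool.Agent.W2helper3.BQ

/-- the function `e^{imt} g(u)` -/
noncomputable def hh (m : ℤ) (g : ℝ → ℂ) (z : ℂ) : ℂ :=
  if z = 0 then 0 else (z / (‖z‖ : ℂ)) ^ m * g (2 * Real.log ‖z‖)

theorem norm_ex (u t : ℝ) : ‖ex u t‖ = Real.exp (u / 2) := by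
  unfold ex
  rw [Complex.norm_exp]
  simp

theorem hh_ex (m : ℤ) (g : ℝ → ℂ) (u t : ℝ) :
    hh m g (ex u t) = Complex.exp (m * t * Complex.I) * g u := by
  have h0 : ex u t ≠ 0 := Complex.exp_ne_zero _
  unfold hh
  rw [if_neg h0, norm_ex, Real.log_exp]
  have h1 : ex u t / ((Real.exp (u / 2) : ℝ) : ℂ) = Complex.exp (t * Complex.I) := by
    unfold ex
    rw [Complex.exp_add, Complex.ofReal_exp]
    field_simp
  rw [h1, ← Complex.exp_int_mul]
  congr 2
  · ring
  · ring

theorem zpow_smooth {f : ℂ → ℂ} {z : ℂ} (hf : ContDiffAt ℝ ∞ f z) (h0 : f z ≠ 0) (m : ℤ) :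
    ContDiffAt ℝ ∞ (fun y => f y ^ m) z := by
  obtain ⟨k, rfl | rfl⟩ := m.eq_nat_or_neg
  · simp only [zpow_natCast]
    exact hf.pow k
  · simp only [zpow_neg, zpow_natCast]
    exact (hf.pow k).inv (pow_ne_zero k h0)

theorem hh_smooth (m : ℤ) (g : ℝ → ℂ) (hg : ContDiff ℝ ∞ g) (hc : HasCompactSupport g) :
    ContDiff ℝ ∞ (hh m g) ∧ HasCompactSupport (hh m g) := by
  obtain ⟨R, hR⟩ := hc.isCompact.isBounded.subset_closedBall 0
  have hz : ∀ u : ℝ, R < |u| → g u = 0 := by
    intro u hu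
    by_contra hne
    have := hR (subset_tsupport g hne)
    rw [Metric.mem_closedBall, dist_zero_right, Real.norm_eq_abs] at this
    linarith
  refine ⟨?_, ?_⟩
  · rw [contDiff_iff_contDiffAt]
    intro z
    by_cases hz0 : z = 0
    · subst hz0
      have : hh m g =ᶠ[𝓝 0] fun _ => (0 : ℂ) := by
        have hb : Metric.ball (0 : ℂ) (Real.exp (-(|R| + 1) / 2)) ∈ 𝓝 (0 : ℂ) :=
          Metric.ball_mem_nhds _ (Real.exp_pos _)
        filter_upwards [hb] with w hw
        unfold hh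
        split_ifs with h
        · rfl
        · rw [mem_ball_zero_iff] at hw
          have hw0 : 0 < ‖w‖ := norm_pos_iff.2 h
          have hl : Real.log ‖w‖ < -(|R| + 1) / 2 := (Real.log_lt_iff_lt_exp hw0).2 hw
          rw [hz, mul_zero]
          have h1 : 2 * Real.log ‖w‖ < -(|R| + 1) := by linarith
          have h2 : R ≤ |R| := le_abs_self R
          have h3 : 0 ≤ |R| := abs_nonneg R
          rw [abs_of_neg (by linarith)]
          linarith
      exact contDiffAt_const.congr_of_eventuallyEq this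
    · have hn : ContDiffAt ℝ ∞ (fun w : ℂ => ‖w‖) z := contDiffAt_norm ℝ hz0
      have hn0 : ‖z‖ ≠ 0 := norm_ne_zero_iff.2 hz0
      have hnc : ContDiffAt ℝ ∞ (fun w : ℂ => ((‖w‖ : ℝ) : ℂ)) z :=
        Complex.ofRealCLM.contDiff.contDiffAt.comp z hn
      have h1 : ContDiffAt ℝ ∞ (fun w : ℂ => w / (‖w‖ : ℂ)) z := by
        have e : (fun w : ℂ => w / (‖w‖ : ℂ)) = fun w => w * ((‖w‖ : ℝ) : ℂ)⁻¹ := by
          ext w; rw [div_eq_mul_inv]
        rw [e]
        exact contDiffAt_id.mul (hnc.inv (by exact_mod_cast hn0))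
      have h2 : ContDiffAt ℝ ∞ (fun w : ℂ => g (2 * Real.log ‖w‖)) z :=
        hg.contDiffAt.comp z (contDiffAt_const.mul (hn.log hn0))
      have h3 := (zpow_smooth h1 (by
        show z / ((‖z‖ : ℝ) : ℂ) ≠ 0
        exact div_ne_zero hz0 (by exact_mod_cast hn0)) m).mul h2
      refine h3.congr_of_eventuallyEq ?_
      filter_upwards [isOpen_ne.mem_nhds hz0] with w hw
      unfold hh
      rw [if_neg hw]
  · refine HasCompactSupport.intro (isCompact_closedBall (0 : ℂ) (Real.exp ((|R| + 1) / 2))) ?_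
    intro w hw
    rw [mem_closedBall_zero_iff, not_le] at hw
    have hw0 : 0 < ‖w‖ := (Real.exp_pos _).trans hw
    unfold hh
    rw [if_neg (norm_pos_iff.1 hw0), hz, mul_zero]
    have hl : (|R| + 1) / 2 < Real.log ‖w‖ := (Real.lt_log_iff_exp_lt hw0).2 hw
    have h2 : R ≤ |R| := le_abs_self R
    have h3 : 0 ≤ |R| := abs_nonneg R
    rw [abs_of_pos (by linarith)]
    linarith

theorem p_EXI : P_EXI := by
  intro m g hg hc
  obtain ⟨h1, h2⟩ := hh_smooth m g hg hc
  exact ⟨h2.toSchwartzMap h1, h2, fun u t => hh_ex m g u t⟩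

end Pool.Agent.W2helper75.BQ
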